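import Mathlib

/-!
# MP_7f2dba_nt, Q1

For every integer `m ≡ 1 (mod 3)` and `n ≥ 1`,
`ν₃(S_m(n)/n) ≥ min{ν₃(n), ν₃(m-1)} - 1`, where
`S_m(n) = ∑_{k<n} (-1)^k C(n-1,k) C(2k,k) m^{-k}`.
-/

namespace Pool.Agent.Q35.ThreeAdic

open Polynomial Finset

noncomputable section

/-- `φ = X² + X + 1`. -/
def ph : ℤ[X] := X ^ 2 + X + 1

lemma dvdc {a b c : ℤ} (h : a ∣ b) (e : b = c) : a ∣ c := e ▸ h

lemma ph_mul : ph * (1 - X) = 1 - X ^ 3 := by unfold ph; ring

/-! ### Frobenius congruence -/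

lemma frob_base : (3 : ℤ[X]) ∣ ph ^ 3 - expand ℤ 3 ph := by
  refine ⟨X + 2 * X ^ 2 + 2 * X ^ 3 + 2 * X ^ 4 + X ^ 5, ?_⟩
  unfold ph
  simp only [map_add, map_pow, expand_X, map_one]
  ring

lemma frob (k t : ℕ) :
    (3 : ℤ[X]) ^ (k + 1) ∣ ph ^ (3 * (3 ^ k * t)) - expand ℤ 3 (ph ^ (3 ^ k * t)) := by
  have h1 : ((3 : ℕ) : ℤ[X]) ∣ ph ^ 3 - expand ℤ 3 ph := by
    simpa using frob_base
  have h2 := dvd_sub_pow_of_dvd_sub h1 k
  have h3 : (ph ^ 3) ^ 3 ^ k - (expand ℤ 3 ph) ^ 3 ^ k ∣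
      ((ph ^ 3) ^ 3 ^ k) ^ t - ((expand ℤ 3 ph) ^ 3 ^ k) ^ t := sub_dvd_pow_sub_pow _ _ _
  have h4 := h2.trans h3
  have e1 : ((ph ^ 3) ^ 3 ^ k) ^ t = ph ^ (3 * (3 ^ k * t)) := by
    rw [← pow_mul, ← pow_mul]
  have e2 : ((expand ℤ 3 ph) ^ 3 ^ k) ^ t = expand ℤ 3 (ph ^ (3 ^ k * t)) := by
    rw [← pow_mul, map_pow]
  rw [e1, e2] at h4
  push_cast at h4
  exact h4

lemma coeff_dvd_of_dvd {k : ℕ} {p : ℤ[X]} (h : (3 : ℤ[X]) ^ k ∣ p) (m : ℕ) :
    (3 : ℤ) ^ k ∣ p.coeff m := by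
  have e : (3 : ℤ[X]) ^ k = C ((3 : ℤ) ^ k) := by
    rw [C_pow]; congr 1
  rw [e, C_dvd_iff_dvd_coeff] at h
  exact h m

lemma frob_coeff0 (k t l : ℕ) :
    (3 : ℤ) ^ (k + 1) ∣ (ph ^ (3 * (3 ^ k * t))).coeff (3 * l) - (ph ^ (3 ^ k * t)).coeff l := by
  have h := coeff_dvd_of_dvd (frob k t) (3 * l)
  rw [coeff_sub, coeff_expand (by norm_num : 0 < 3)] at h
  simpa using h

lemma frob_coeff1 (k t l : ℕ) :
    (3 : ℤ) ^ (k + 1) ∣ (ph ^ (3 * (3 ^ k * t))).coeff (3 * l + 1) := by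
  have h := coeff_dvd_of_dvd (frob k t) (3 * l + 1)
  rw [coeff_sub, coeff_expand (by norm_num : 0 < 3)] at h
  have : ¬ (3 ∣ 3 * l + 1) := by omega
  simpa [this] using h

lemma frob_coeff2 (k t l : ℕ) :
    (3 : ℤ) ^ (k + 1) ∣ (ph ^ (3 * (3 ^ k * t))).coeff (3 * l + 2) := by
  have h := coeff_dvd_of_dvd (frob k t) (3 * l + 2)
  rw [coeff_sub, coeff_expand (by norm_num : 0 < 3)] at h
  have : ¬ (3 ∣ 3 * l + 2) := by omega
  simpa [this] using h

/-- Partial sums of the coefficients of `ph ^ M`. -/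
def P (M q : ℕ) : ℤ := ∑ l ∈ range (q + 1), (ph ^ M).coeff l

/-- Partial sums over coefficients at multiples of three. -/
def D (M q : ℕ) : ℤ := ∑ l ∈ range (q + 1), (ph ^ M).coeff (3 * l)

lemma D_congr (k t q : ℕ) :
    (3 : ℤ) ^ (k + 1) ∣ D (3 * (3 ^ k * t)) q - P (3 ^ k * t) q := by
  unfold D P
  rw [← Finset.sum_sub_distrib]
  exact Finset.dvd_sum fun l _ => frob_coeff0 k t l

lemma P_succ (M q : ℕ) : P M (q + 1) = P M q + (ph ^ M).coeff (q + 1) := by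
  unfold P; rw [Finset.sum_range_succ]

lemma P_congr0 (k t q : ℕ) :
    (3 : ℤ) ^ (k + 1) ∣ P (3 * (3 ^ k * t)) (3 * q) - P (3 ^ k * t) q := by
  induction q with
  | zero =>
    have h := frob_coeff0 k t 0
    simpa [P] using h
  | succ q ih =>
    have e : 3 * (q + 1) = (3 * q) + 1 + 1 + 1 := by ring
    rw [e, P_succ, P_succ, P_succ, P_succ]
    have h1 := frob_coeff1 k t q
    have h2 := frob_coeff2 k t q
    have h3 := frob_coeff0 k t (q + 1)
    rw [e] at h3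
    have h2' : 3 * q + 2 = 3 * q + 1 + 1 := rfl
    rw [h2'] at h2
    have := dvd_add (dvd_add (dvd_add ih h1) h2) h3
    exact dvdc this (by ring)

lemma P_congr1 (k t q : ℕ) :
    (3 : ℤ) ^ (k + 1) ∣ P (3 * (3 ^ k * t)) (3 * q + 1) - P (3 ^ k * t) q := by
  rw [P_succ]
  have := dvd_add (P_congr0 k t q) (frob_coeff1 k t q)
  exact dvdc this (by ring)

lemma P_congr2 (k t q : ℕ) :
    (3 : ℤ) ^ (k + 1) ∣ P (3 * (3 ^ k * t)) (3 * q + 2) - P (3 ^ k * t) q := by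
  have h2' : 3 * q + 2 = 3 * q + 1 + 1 := rfl
  rw [h2', P_succ]
  have := dvd_add (P_congr1 k t q) (frob_coeff2 k t q)
  exact dvdc this (by ring)

/-! ### The Lipschitz induction -/

/-- The Lipschitz condition. -/
def Lip (g : ℕ → ℤ) : Prop := ∀ u c j : ℕ, (3 : ℤ) ^ (j + 1) ∣ g (u + 3 ^ j * c) - g u

lemma sum_range_three_mul (f : ℕ → ℤ) (N : ℕ) :
    ∑ q ∈ range (3 * N), f q = ∑ q ∈ range N, (f (3 * q) + f (3 * q + 1) + f (3 * q + 2)) := by
  induction N with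
  | zero => simp
  | succ N ih =>
    have e : 3 * (N + 1) = 3 * N + 1 + 1 + 1 := by ring
    rw [e, Finset.sum_range_succ, Finset.sum_range_succ, Finset.sum_range_succ,
      Finset.sum_range_succ, ih]
    ring

lemma lip_three {g : ℕ → ℤ} (hg : Lip g) (q : ℕ) :
    (3 : ℤ) ∣ g (3 * q) + g (3 * q + 1) + g (3 * q + 2) := by
  have h1 := hg (3 * q) 1 0
  have h2 := hg (3 * q) 2 0
  norm_num at h1 h2
  have : g (3 * q) + g (3 * q + 1) + g (3 * q + 2) =
    3 * g (3 * q) + (g (3 * q + 1) - g (3 * q)) + (g (3 * q + 2) - g (3 * q)) := by ring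
  rw [this]
  exact dvd_add (dvd_add (dvd_mul_right _ _) h1) h2

lemma lip_avg {g : ℕ → ℤ} (hg : Lip g) :
    ∃ g' : ℕ → ℤ, Lip g' ∧ ∀ q, g (3 * q) + g (3 * q + 1) + g (3 * q + 2) = 3 * g' q := by
  choose g' hg' using lip_three hg
  refine ⟨g', ?_, hg'⟩
  intro u c j
  have h0 := hg (3 * u) c (j + 1)
  have h1 := hg (3 * u + 1) c (j + 1)
  have h2 := hg (3 * u + 2) c (j + 1)
  have e0 : 3 * u + 3 ^ (j + 1) * c = 3 * (u + 3 ^ j * c) := by ring
  have e1 : 3 * u + 1 + 3 ^ (j + 1) * c = 3 * (u + 3 ^ j * c) + 1 := by ring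
  have e2 : 3 * u + 2 + 3 ^ (j + 1) * c = 3 * (u + 3 ^ j * c) + 2 := by ring
  rw [e0] at h0
  rw [e1] at h1
  rw [e2] at h2
  have h := dvd_add (dvd_add h0 h1) h2
  have e : g (3 * (u + 3 ^ j * c)) - g (3 * u) + (g (3 * (u + 3 ^ j * c) + 1) - g (3 * u + 1)) +
      (g (3 * (u + 3 ^ j * c) + 2) - g (3 * u + 2)) = 3 * (g' (u + 3 ^ j * c) - g' u) := by
    have a1 := hg' (u + 3 ^ j * c)
    have a2 := hg' u
    linarith
  rw [e, pow_succ' (3 : ℤ) (j + 1)] at h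
  exact (mul_dvd_mul_iff_left (by norm_num : (3 : ℤ) ≠ 0)).1 h

lemma lip_sum (t : ℕ) : ∀ (k : ℕ) (g : ℕ → ℤ), Lip g →
    (3 : ℤ) ^ k ∣ ∑ q ∈ range (3 ^ k * t), P (3 ^ k * t) q * g q := by
  intro k
  induction k with
  | zero => intro g _; simp
  | succ k ih =>
    intro g hg
    obtain ⟨g', hg', hE⟩ := lip_avg hg
    have e : 3 ^ (k + 1) * t = 3 * (3 ^ k * t) := by ring
    rw [e, sum_range_three_mul]
    have h1 := ih g' hg'
    have h2 : (3 : ℤ) ^ (k + 1) ∣ ∑ q ∈ range (3 ^ k * t), P (3 ^ k * t) q * (3 * g' q) := by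
      have : ∑ q ∈ range (3 ^ k * t), P (3 ^ k * t) q * (3 * g' q) =
          3 * ∑ q ∈ range (3 ^ k * t), P (3 ^ k * t) q * g' q := by
        rw [Finset.mul_sum]; apply Finset.sum_congr rfl; intro q _; ring
      rw [this, pow_succ']
      exact mul_dvd_mul_left 3 h1
    have h3 : (3 : ℤ) ^ (k + 1) ∣
        ∑ q ∈ range (3 ^ k * t), (P (3 * (3 ^ k * t)) (3 * q) * g (3 * q) +
          P (3 * (3 ^ k * t)) (3 * q + 1) * g (3 * q + 1) +
          P (3 * (3 ^ k * t)) (3 * q + 2) * g (3 * q + 2)) -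
        ∑ q ∈ range (3 ^ k * t), P (3 ^ k * t) q * (3 * g' q) := by
      rw [← Finset.sum_sub_distrib]
      apply Finset.dvd_sum
      intro q _
      rw [← hE q]
      have := dvd_add (dvd_add ((P_congr0 k t q).mul_right (g (3 * q)))
        ((P_congr1 k t q).mul_right (g (3 * q + 1)))) ((P_congr2 k t q).mul_right (g (3 * q + 2)))
      exact dvdc this (by ring)
    have := dvd_add h3 h2
    simpa using this

lemma lip_pow (E : ℕ) : Lip (fun q => ((3 * q + 2 : ℕ) : ℤ) ^ E - ((3 * q + 1 : ℕ) : ℤ) ^ E) := by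
  intro u c j
  have h1 : (3 : ℤ) ^ (j + 1) ∣ ((3 * (u + 3 ^ j * c) + 2 : ℕ) : ℤ) ^ E - ((3 * u + 2 : ℕ) : ℤ) ^ E := by
    refine dvd_trans ?_ (sub_dvd_pow_sub_pow _ _ _)
    refine ⟨c, ?_⟩
    push_cast; ring
  have h2 : (3 : ℤ) ^ (j + 1) ∣ ((3 * (u + 3 ^ j * c) + 1 : ℕ) : ℤ) ^ E - ((3 * u + 1 : ℕ) : ℤ) ^ E := by
    refine dvd_trans ?_ (sub_dvd_pow_sub_pow _ _ _)
    refine ⟨c, ?_⟩
    push_cast; ring
  have := dvd_sub h1 h2
  exact dvdc this (by ring)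

/-! ### Coefficient recursions -/

lemma d_step (n m : ℕ) (hn : 0 < n) :
    (ph ^ (n - 1)).coeff (m + 3) =
      (ph ^ (n - 1)).coeff m + (ph ^ n).coeff (m + 3) - (ph ^ n).coeff (m + 2) := by
  have h : ph ^ (n - 1) * (1 - X ^ 3) = ph ^ n * (1 - X) := by
    rw [← ph_mul, ← mul_assoc, ← pow_succ]; congr 2; omega
  have h1 := congrArg (fun p => p.coeff (m + 3)) h
  simp only [mul_sub, mul_one, coeff_sub] at h1
  rw [coeff_mul_X_pow, show m + 3 = (m + 2) + 1 from rfl, coeff_mul_X] at h1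
  linarith

lemma d_base (n : ℕ) (hn : 0 < n) :
    (ph ^ (n - 1)).coeff 2 = (ph ^ n).coeff 2 - (ph ^ n).coeff 1 := by
  have h : ph ^ (n - 1) * (1 - X ^ 3) = ph ^ n * (1 - X) := by
    rw [← ph_mul, ← mul_assoc, ← pow_succ]; congr 2; omega
  have h1 := congrArg (fun p => p.coeff 2) h
  simp only [mul_sub, mul_one, coeff_sub] at h1
  rw [coeff_mul_X_pow', show (2 : ℕ) = 1 + 1 from rfl, coeff_mul_X] at h1
  simpa using h1

lemma d_sum (n : ℕ) (hn : 0 < n) (q : ℕ) :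
    (ph ^ (n - 1)).coeff (3 * q + 2) =
      ∑ i ∈ range (q + 1), ((ph ^ n).coeff (3 * i + 2) - (ph ^ n).coeff (3 * i + 1)) := by
  induction q with
  | zero => simpa using d_base n hn
  | succ q ih =>
    rw [Finset.sum_range_succ, ← ih]
    have := d_step n (3 * q + 2) hn
    have e1 : 3 * (q + 1) + 2 = 3 * q + 2 + 3 := by ring
    have e2 : 3 * (q + 1) + 1 = 3 * q + 2 + 2 := by ring
    rw [e1, e2, this]; ring

/-- `b = X φ' φ^{n-1}`. -/
def B (n : ℕ) : ℤ[X] := X * (2 * X + 1) * ph ^ (n - 1)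

lemma derivative_ph : derivative ph = 2 * X + 1 := by
  unfold ph
  simp

lemma mc_eq (n m : ℕ) : (m : ℤ) * (ph ^ n).coeff m = n * (B n).coeff m := by
  cases m with
  | zero => simp [B, mul_assoc]
  | succ m =>
    have h1 : (derivative (ph ^ n)).coeff m = (ph ^ n).coeff (m + 1) * (m + 1) := coeff_derivative _ _
    rw [derivative_pow, derivative_ph] at h1
    have h2 : (B n).coeff (m + 1) = ((2 * X + 1) * ph ^ (n - 1)).coeff m := by
      unfold B
      rw [mul_assoc, coeff_X_mul]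
    rw [h2]
    have h3 : (C (n : ℤ) * ph ^ (n - 1) * (2 * X + 1)).coeff m =
        (n : ℤ) * ((2 * X + 1) * ph ^ (n - 1)).coeff m := by
      rw [mul_assoc, coeff_C_mul, mul_comm (ph ^ (n - 1))]
    have h4 : (C (n : ℤ) * ph ^ (n - 1) * (2 * X + 1)).coeff m =
        (ph ^ n).coeff (m + 1) * (m + 1) := by
      rw [← h1]
    rw [← h3, h4]; push_cast; ring

lemma B_rel (n : ℕ) (hn : 0 < n) :
    B n * (1 - X ^ 3) = (ph ^ n) * X + (ph ^ n) * X ^ 2 - 2 * ((ph ^ n) * X ^ 3) := by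
  have e : ph ^ n = ph ^ (n - 1) * ph := by rw [← pow_succ]; congr 1; omega
  unfold B
  rw [← ph_mul, e]; ring

lemma B_step (n m : ℕ) (hn : 0 < n) :
    (B n).coeff (m + 3) = (B n).coeff m + (ph ^ n).coeff (m + 2) + (ph ^ n).coeff (m + 1)
      - 2 * (ph ^ n).coeff m := by
  have h1 := congrArg (fun p => p.coeff (m + 3)) (B_rel n hn)
  simp only [mul_sub, mul_one, coeff_sub, coeff_add] at h1
  have e2 : (2 * (ph ^ n * X ^ 3)).coeff (m + 3) = 2 * (ph ^ n).coeff m := by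
    have : (2 : ℤ[X]) = C 2 := rfl
    rw [this, coeff_C_mul, coeff_mul_X_pow]
  rw [coeff_mul_X_pow, e2, show m + 3 = (m + 2) + 1 from rfl, coeff_mul_X,
    show m + 2 + 1 = (m + 1) + 2 from rfl, coeff_mul_X_pow] at h1
  linarith

lemma B_one (n : ℕ) : (B n).coeff 1 = (ph ^ (n - 1)).coeff 0 := by
  unfold B
  rw [mul_assoc, show (1 : ℕ) = 0 + 1 from rfl, coeff_X_mul]
  rw [mul_coeff_zero]
  simp

lemma B_12 (n : ℕ) (hn : 0 < n) :
    (B n).coeff 1 = (ph ^ n).coeff 0 ∧ (B n).coeff 2 = (ph ^ n).coeff 0 + (ph ^ n).coeff 1 := by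
  constructor
  · have h1 := congrArg (fun p => p.coeff 1) (B_rel n hn)
    simp only [mul_sub, mul_one, coeff_sub, coeff_add] at h1
    have e2 : (2 * (ph ^ n * X ^ 3)).coeff 1 = 0 := by
      have : (2 : ℤ[X]) = C 2 := rfl
      rw [this, coeff_C_mul, coeff_mul_X_pow']; simp
    rw [e2, coeff_mul_X_pow', coeff_mul_X_pow', show (1 : ℕ) = 0 + 1 from rfl, coeff_mul_X] at h1
    simpa using h1
  · have h1 := congrArg (fun p => p.coeff 2) (B_rel n hn)
    simp only [mul_sub, mul_one, coeff_sub, coeff_add] at h1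
    have e2 : (2 * (ph ^ n * X ^ 3)).coeff 2 = 0 := by
      have : (2 : ℤ[X]) = C 2 := rfl
      rw [this, coeff_C_mul, coeff_mul_X_pow']; simp
    rw [e2, coeff_mul_X_pow', coeff_mul_X_pow', show (2 : ℕ) = 1 + 1 from rfl, coeff_mul_X] at h1
    have : (B n).coeff (1 + 1) = (ph ^ n).coeff 1 + (ph ^ n).coeff 0 := by simpa using h1
    rw [this]; ring

/-- the coefficients of `B` at `3q+1`, `3q+2` agree with `D` modulo `3^(k+1)`. -/
lemma B_congr (k t : ℕ) (ht : 0 < t) (q : ℕ) :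
    (3 : ℤ) ^ (k + 1) ∣ (B (3 * (3 ^ k * t))).coeff (3 * q + 1) - D (3 * (3 ^ k * t)) q ∧
    (3 : ℤ) ^ (k + 1) ∣ (B (3 * (3 ^ k * t))).coeff (3 * q + 2) - D (3 * (3 ^ k * t)) q := by
  have hn : 0 < 3 * (3 ^ k * t) := by positivity
  induction q with
  | zero =>
    obtain ⟨h1, h2⟩ := B_12 _ hn
    constructor
    · simp [h1, D]
    · have := frob_coeff1 k t 0
      simpa [h2, D] using this
  | succ q ih =>
    have e1 : 3 * (q + 1) + 1 = (3 * q + 1) + 3 := by ring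
    have e2 : 3 * (q + 1) + 2 = (3 * q + 2) + 3 := by ring
    have eD : D (3 * (3 ^ k * t)) (q + 1) = D (3 * (3 ^ k * t)) q +
        (ph ^ (3 * (3 ^ k * t))).coeff (3 * (q + 1)) := by
      unfold D; rw [Finset.sum_range_succ]
    have f1 := frob_coeff1 k t q
    have f2 := frob_coeff2 k t q
    have f1' := frob_coeff1 k t (q + 1)
    constructor
    · rw [e1, B_step _ _ hn, eD]
      have := dvd_sub (dvd_add ih.1 f2) (f1.mul_left 2)
      refine dvdc this ?_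
      have e3 : 3 * (q + 1) = 3 * q + 1 + 2 := by ring
      have e4 : 3 * q + 2 = 3 * q + 1 + 1 := by ring
      rw [e3, e4]; ring
    · rw [e2, B_step _ _ hn, eD]
      have := dvd_sub (dvd_add ih.2 f1') (f2.mul_left 2)
      refine dvdc this ?_
      have e3 : 3 * (q + 1) + 1 = 3 * q + 2 + 2 := by ring
      have e4 : 3 * (q + 1) = 3 * q + 2 + 1 := by ring
      rw [e3, e4]; ring

/-! ### The central trinomial coefficient -/

lemma main_T (k t : ℕ) (ht : 0 < t) :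
    (3 : ℤ) ^ (2 * k + 1) ∣
      (ph ^ (3 * (3 ^ k * t) - 1)).coeff (3 * (3 ^ k * t) - 1) := by
  set N := 3 ^ k * t with hN
  have hNpos : 0 < N := by positivity
  have hn : 0 < 3 * N := by positivity
  have e0 : 3 * N - 1 = 3 * (N - 1) + 2 := by omega
  have hS := d_sum (3 * N) hn (N - 1)
  rw [show N - 1 + 1 = N by omega, ← e0] at hS
  rw [hS]
  set K := 2 * (k + 1) with hK
  set E := Nat.totient (3 ^ K) - 1 with hE
  have hEpos : 0 < Nat.totient (3 ^ K) := Nat.totient_pos.2 (by positivity)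
  have hE1 : E + 1 = Nat.totient (3 ^ K) := by omega
  -- Euler
  have euler : ∀ m : ℕ, Nat.Coprime m 3 → (3 : ℤ) ^ K ∣ (m : ℤ) ^ (E + 1) - 1 := by
    intro m hm
    have h := Nat.ModEq.pow_totient (Nat.Coprime.pow_right K hm)
    rw [hE1]
    have h' := (Int.natCast_modEq_iff.2 h).symm.dvd
    push_cast at h'
    exact h'
  -- each coefficient
  have key : ∀ m : ℕ, Nat.Coprime m 3 → ∀ d : ℤ, (3 : ℤ) ^ (k + 1) ∣ (B (3 * N)).coeff m - d →
      (3 : ℤ) ^ K ∣ (ph ^ (3 * N)).coeff m - (3 * N : ℤ) * d * (m : ℤ) ^ E := by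
    intro m hm d hd
    have h1 := (euler m hm).mul_right ((ph ^ (3 * N)).coeff m)
    have h2 : (3 : ℤ) ^ K ∣ (3 * N : ℤ) * ((B (3 * N)).coeff m - d) := by
      have h3 : (3 : ℤ) ^ (k + 1) ∣ (3 * N : ℤ) := by
        refine ⟨t, ?_⟩
        rw [hN]; push_cast; ring
      have h4 := mul_dvd_mul h3 hd
      rwa [← pow_add, show k + 1 + (k + 1) = K by omega] at h4
    have h3 := h2.mul_right ((m : ℤ) ^ E)
    have h5 := mc_eq (3 * N) m
    have h6 := dvd_sub h3 h1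
    refine dvdc h6 ?_
    have h7 : ((3 * N : ℕ) : ℤ) = 3 * (N : ℤ) := by push_cast; ring
    rw [h7] at h5
    rw [pow_succ]
    linear_combination ((m : ℤ) ^ E) * (-h5)
  have hD : ∀ q, (3 : ℤ) ^ (k + 1) ∣ D (3 * N) q - P N q := D_congr k t
  have hB1 : ∀ q, (3 : ℤ) ^ (k + 1) ∣ (B (3 * N)).coeff (3 * q + 1) - P N q := fun q =>
    dvdc (dvd_add (B_congr k t ht q).1 (hD q)) (by ring)
  have hB2 : ∀ q, (3 : ℤ) ^ (k + 1) ∣ (B (3 * N)).coeff (3 * q + 2) - P N q := fun q =>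
    dvdc (dvd_add (B_congr k t ht q).2 (hD q)) (by ring)
  have cop1 : ∀ q, Nat.Coprime (3 * q + 1) 3 := fun q => by
    rw [Nat.coprime_comm, Nat.Prime.coprime_iff_not_dvd Nat.prime_three]; omega
  have cop2 : ∀ q, Nat.Coprime (3 * q + 2) 3 := fun q => by
    rw [Nat.coprime_comm, Nat.Prime.coprime_iff_not_dvd Nat.prime_three]; omega
  have hdiff : (3 : ℤ) ^ K ∣
      ∑ i ∈ range N, ((ph ^ (3 * N)).coeff (3 * i + 2) - (ph ^ (3 * N)).coeff (3 * i + 1)) -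
      (3 * N : ℤ) * ∑ i ∈ range N, P N i *
        (((3 * i + 2 : ℕ) : ℤ) ^ E - ((3 * i + 1 : ℕ) : ℤ) ^ E) := by
    rw [Finset.mul_sum, ← Finset.sum_sub_distrib]
    apply Finset.dvd_sum
    intro i _
    refine dvdc (dvd_sub (key _ (cop2 i) _ (hB2 i)) (key _ (cop1 i) _ (hB1 i))) ?_
    ring
  have hsum := lip_sum t k _ (lip_pow E)
  rw [← hN] at hsum
  have h3N : (3 : ℤ) ^ (k + 1) ∣ (3 * N : ℤ) := by
    refine ⟨t, ?_⟩
    rw [hN]; push_cast; ring
  have h4 := mul_dvd_mul h3N hsum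
  rw [← pow_add] at h4
  have h5 : (3 : ℤ) ^ (2 * k + 1) ∣ (3 : ℤ) ^ K := pow_dvd_pow _ (by omega)
  have h6 := h5.trans hdiff
  have h7 := dvd_add h6 ((dvd_of_eq (by ring_nf) : (3 : ℤ) ^ (2 * k + 1) ∣ 3 ^ (k + 1 + k)).trans h4)
  refine dvdc h7 ?_
  ring

/-! ### Expansion of the sum -/

/-- The integer `m^(n-1) S_m(n)` expanded around `w = 4 - m`. -/
lemma expand_w (w : ℤ) (N : ℕ) :
    (((X - 1) ^ 2 + C w * X : ℤ[X]) ^ N).coeff N =
      ∑ u ∈ range (N + 1), (N.choose u : ℤ) * w ^ u * ((-1) ^ (N - u) * (N - u).centralBinom) := by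
  rw [add_comm, add_pow, finsetSum_coeff]
  apply Finset.sum_congr rfl
  intro u hu
  have hu' : u ≤ N := by simpa [Nat.lt_succ_iff] using Finset.mem_range.1 hu
  have e : (C w * X : ℤ[X]) ^ u * ((X - 1) ^ 2) ^ (N - u) * (N.choose u : ℤ[X]) =
      C ((N.choose u : ℤ) * w ^ u) * ((X - 1) ^ (2 * (N - u)) * X ^ u) := by
    rw [mul_pow, ← C_pow, ← pow_mul, C_mul]
    have : (C (N.choose u : ℤ) : ℤ[X]) = (N.choose u : ℤ[X]) := by simp
    rw [this]; ring
  rw [e, coeff_C_mul, coeff_mul_X_pow', if_pos hu']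
  congr 1
  have e2 : (X - 1 : ℤ[X]) = X + C (-1) := by simp [sub_eq_add_neg]
  rw [e2, coeff_X_add_C_pow]
  have e3 : 2 * (N - u) - (N - u) = N - u := by omega
  rw [e3, Nat.centralBinom]

lemma expand_m (m : ℤ) (N : ℕ) :
    ((C m * X - (1 + X) ^ 2 : ℤ[X]) ^ N).coeff N =
      ∑ k ∈ range (N + 1), (-1) ^ k * (N.choose k : ℤ) * k.centralBinom * m ^ (N - k) := by
  have e0 : (C m * X - (1 + X) ^ 2 : ℤ[X]) = -(1 + X) ^ 2 + C m * X := by ring
  rw [e0, add_pow, finsetSum_coeff]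
  apply Finset.sum_congr rfl
  intro k hk
  have hk' : k ≤ N := by simpa [Nat.lt_succ_iff] using Finset.mem_range.1 hk
  have e : (-(1 + X) ^ 2 : ℤ[X]) ^ k * (C m * X) ^ (N - k) * (N.choose k : ℤ[X]) =
      C ((-1) ^ k * (N.choose k : ℤ) * m ^ (N - k)) * ((1 + X) ^ (2 * k) * X ^ (N - k)) := by
    rw [mul_pow, ← C_pow, neg_pow, ← pow_mul, C_mul, C_mul]
    have : (C (N.choose k : ℤ) : ℤ[X]) = (N.choose k : ℤ[X]) := by simp
    have h2 : (C ((-1 : ℤ) ^ k) : ℤ[X]) = (-1) ^ k := by simp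
    rw [this, h2]; ring
  rw [e, coeff_C_mul, coeff_mul_X_pow', if_pos (by omega)]
  have e3 : N - (N - k) = k := by omega
  rw [e3, coeff_one_add_X_pow, ← Nat.centralBinom_eq_two_mul_choose]
  ring

lemma two_expansions (m : ℤ) (N : ℕ) :
    ∑ k ∈ range (N + 1), (-1) ^ k * (N.choose k : ℤ) * k.centralBinom * m ^ (N - k) =
    (-1) ^ N * ∑ u ∈ range (N + 1), (N.choose u : ℤ) * (4 - m) ^ u *
      ((-1) ^ (N - u) * (N - u).centralBinom) := by
  rw [← expand_m, ← expand_w]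
  have e : (C m * X - (1 + X) ^ 2 : ℤ[X]) = -((X - 1) ^ 2 + C (4 - m) * X) := by
    rw [C_sub]
    have : (C (4 : ℤ) : ℤ[X]) = 4 := rfl
    rw [this]; ring
  rw [e, neg_pow]
  have e2 : ((-1 : ℤ[X]) ^ N) = C ((-1 : ℤ) ^ N) := by simp
  rw [e2, coeff_C_mul]

/-! ### Valuation of central binomial coefficients -/

lemma cb_dvd (a n u : ℕ) (hn : 3 ^ a ∣ n) (hu : u < n) :
    3 ^ a ∣ 3 ^ u * (n - 1 - u).centralBinom := by
  rcases Nat.lt_or_ge u a with hua | hua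
  swap
  · exact (pow_dvd_pow 3 hua).mul_right _
  have h1 : a - u ≤ padicValNat 3 ((n - 1 - u).centralBinom) := by
    have : Fact (Nat.Prime 3) := ⟨Nat.prime_three⟩
    set N := n - 1 - u with hN
    rw [Nat.centralBinom_eq_two_mul_choose,
      padicValNat_choose (p := 3) (b := Nat.log 3 (2 * N) + 1 + a) (by omega) (by omega)]
    have hsub : Finset.Ico (u + 1) (a + 1) ⊆ (Finset.Ico 1 (Nat.log 3 (2 * N) + 1 + a)).filter
        (fun i => 3 ^ i ≤ N % 3 ^ i + (2 * N - N) % 3 ^ i) := by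
      intro i hi
      rw [Finset.mem_Ico] at hi
      rw [Finset.mem_filter, Finset.mem_Ico]
      refine ⟨by omega, ?_⟩
      have e : 2 * N - N = N := by omega
      rw [e]
      obtain ⟨c, hc⟩ : 3 ^ i ∣ n := (pow_dvd_pow 3 (by omega)).trans hn
      have hu3 : u + 1 ≤ 3 ^ u := Nat.succ_le_of_lt (Nat.lt_pow_self (by norm_num))
      have hi3 : 3 ^ (u + 1) ≤ 3 ^ i := Nat.pow_le_pow_right (by norm_num) hi.1
      rw [pow_succ] at hi3
      have hc0 : 0 < c := by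
        rcases Nat.eq_zero_or_pos c with h | h
        · subst h; omega
        · exact h
      obtain ⟨c', rfl⟩ : ∃ c', c = c' + 1 := ⟨c - 1, by omega⟩
      have hNe : N = (3 ^ i - 1 - u) + 3 ^ i * c' := by
        rw [hN, hc]
        have : 3 ^ i * (c' + 1) = 3 ^ i + 3 ^ i * c' := by ring
        omega
      have hmod : N % 3 ^ i = 3 ^ i - 1 - u := by
        rw [hNe, Nat.add_mul_mod_self_left]
        exact Nat.mod_eq_of_lt (by omega)
      rw [hmod]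
      omega
    have := Finset.card_le_card hsub
    rw [Nat.card_Ico] at this
    omega
  have h2 : 3 ^ (a - u) ∣ (n - 1 - u).centralBinom := by
    have : Fact (Nat.Prime 3) := ⟨Nat.prime_three⟩
    exact (padicValNat_dvd_iff_le (Nat.centralBinom_ne_zero _)).2 h1
  have h3 : 3 ^ a = 3 ^ u * 3 ^ (a - u) := by rw [← pow_add]; congr 1; omega
  rw [h3]
  exact mul_dvd_mul_left _ h2

/-- Integer form. -/
theorem int_form (m : ℤ) (n a e : ℕ) (hn0 : 0 < n) (ha : 3 ^ (a + 1) ∣ n) (he : (3 : ℤ) ^ (e + 1) ∣ m - 1)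
    (hea : e ≤ a) :
    (3 : ℤ) ^ (a + e + 1) ∣
      ∑ k ∈ range n, (-1) ^ k * ((n - 1).choose k : ℤ) * k.centralBinom * m ^ (n - 1 - k) := by
  obtain ⟨t, ht⟩ := ha
  have ht0 : 0 < t := by
    rcases Nat.eq_zero_or_pos t with h | h
    · subst h; omega
    · exact h
  have hn' : n = 3 * (3 ^ a * t) := by rw [ht]; ring
  have hT := main_T a t ht0
  rw [← hn'] at hT
  have hph : ph = (X - 1) ^ 2 + C 3 * X := by
    unfold ph
    have : (C (3 : ℤ) : ℤ[X]) = 3 := rfl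
    rw [this]; ring
  rw [hph, expand_w] at hT
  have h2 := two_expansions m (n - 1)
  rw [show n - 1 + 1 = n by omega] at h2 hT
  rw [h2]
  apply Dvd.dvd.mul_left
  have h3 : (3 : ℤ) ^ (a + e + 1) ∣
      ∑ u ∈ range n, ((n - 1).choose u : ℤ) * (4 - m) ^ u *
        ((-1) ^ (n - 1 - u) * (n - 1 - u).centralBinom) -
      ∑ u ∈ range n, ((n - 1).choose u : ℤ) * 3 ^ u *
        ((-1) ^ (n - 1 - u) * (n - 1 - u).centralBinom) := by
    rw [← Finset.sum_sub_distrib]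
    apply Finset.dvd_sum
    intro u hu
    have hu' := Finset.mem_range.1 hu
    have e1 : ((n - 1).choose u : ℤ) * (4 - m) ^ u * ((-1) ^ (n - 1 - u) * (n - 1 - u).centralBinom) -
        ((n - 1).choose u : ℤ) * 3 ^ u * ((-1) ^ (n - 1 - u) * (n - 1 - u).centralBinom) =
        (((4 - m) ^ u - 3 ^ u) * (n - 1 - u).centralBinom) *
          (((n - 1).choose u : ℤ) * (-1) ^ (n - 1 - u)) := by ring
    rw [e1]
    apply Dvd.dvd.mul_right
    rcases Nat.eq_zero_or_pos u with h0 | h0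
    · subst h0; simp
    obtain ⟨v, rfl⟩ : ∃ v, u = v + 1 := ⟨u - 1, by omega⟩
    have h4 : (3 : ℤ) ^ (e + 1) * 3 ^ v ∣ (4 - m) ^ (v + 1) - 3 ^ (v + 1) := by
      have hg := Commute.mul_geom_sum₂ (Commute.all (4 - m) (3 : ℤ)) (v + 1)
      rw [← hg]
      have ha1 : (3 : ℤ) ^ (e + 1) ∣ 4 - m - 3 := by
        refine dvdc (he.neg_right) ?_
        ring
      have h3m : (3 : ℤ) ∣ 4 - m := by
        have : (3 : ℤ) ∣ 4 - m - 3 := (dvd_pow_self 3 (by omega)).trans ha1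
        exact dvdc (dvd_add this (dvd_refl 3)) (by ring)
      refine mul_dvd_mul ha1 ?_
      apply Finset.dvd_sum
      intro i hi
      have hi' := Finset.mem_range.1 hi
      have : (3 : ℤ) ^ v = 3 ^ i * 3 ^ (v + 1 - 1 - i) := by
        rw [← pow_add]; congr 1; omega
      rw [this]
      exact mul_dvd_mul (pow_dvd_pow_of_dvd h3m i) (dvd_refl _)
    have h5 : (3 : ℤ) ^ a ∣ 3 ^ v * ((n - 1 - (v + 1)).centralBinom : ℤ) := by
      have h6 := cb_dvd (a + 1) n (v + 1) ⟨t, ht⟩ hu'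
      have h7 : (3 : ℤ) ^ (a + 1) ∣ 3 ^ (v + 1) * ((n - 1 - (v + 1)).centralBinom : ℤ) := by
        exact_mod_cast h6
      rw [pow_succ', pow_succ' (3 : ℤ) v, mul_assoc] at h7
      exact (mul_dvd_mul_iff_left (by norm_num : (3 : ℤ) ≠ 0)).1 h7
    obtain ⟨z, hz⟩ := h4
    rw [hz]
    have h8 := (mul_dvd_mul (dvd_refl ((3 : ℤ) ^ (e + 1))) h5).mul_right z
    rw [← pow_add, show e + 1 + a = a + e + 1 by ring] at h8
    refine dvdc h8 ?_
    ring
  have h9 : (3 : ℤ) ^ (a + e + 1) ∣ (3 : ℤ) ^ (2 * a + 1) := pow_dvd_pow _ (by omega)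
  have := dvd_add h3 (h9.trans hT)
  simpa using this

/-- The sum `S_m(n) = ∑_{k<n} (-1)^k C(n-1,k) C(2k,k) m^{-k}`. -/
def S (m : ℤ) (n : ℕ) : ℚ :=
  ∑ k ∈ range n, (-1) ^ k * ((n - 1).choose k : ℚ) * ((2 * k).choose k : ℚ) * ((m : ℚ) ^ k)⁻¹

/-- The `3`-adic valuation of a rational number, with `ν₃(0) = +∞`. -/
def nu3 (x : ℚ) : WithTop ℤ := if x = 0 then ⊤ else ((padicValRat 3 x : ℤ) : WithTop ℤ)

lemma S_mul (m : ℤ) (hm : (m : ℚ) ≠ 0) (n : ℕ) :
    S m n * (m : ℚ) ^ (n - 1) =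
      ((∑ k ∈ range n, (-1) ^ k * ((n - 1).choose k : ℤ) * k.centralBinom * m ^ (n - 1 - k) : ℤ) : ℚ) := by
  unfold S
  rw [Finset.sum_mul]
  push_cast
  apply Finset.sum_congr rfl
  intro k hk
  have hk' := Finset.mem_range.1 hk
  have e : (m : ℚ) ^ (n - 1) = (m : ℚ) ^ k * (m : ℚ) ^ (n - 1 - k) := by
    rw [← pow_add]; congr 1; omega
  rw [e, Nat.centralBinom_eq_two_mul_choose]
  field_simp

end

end Pool.Agent.Q35.ThreeAdic

namespace Pool.Agent.Results.MP_7f2dba_nt.ThreeAdic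

open Pool.Agent.Q35.ThreeAdic in
/-- **MP_7f2dba_nt, Q1 (proved).** For every integer `m ≡ 1 (mod 3)` and every `n ≥ 1`,
`ν₃(S_m(n)/n) ≥ min{ν₃(n), ν₃(m-1)} - 1`. -/
theorem result : ∀ m : ℤ, m ≡ 1 [ZMOD 3] → ∀ n : ℕ, 0 < n →
    min (nu3 (n : ℚ)) (nu3 ((m : ℚ) - 1)) ≤ nu3 (S m n / n) + 1 := by
  intro m hm n hn
  have hF : Fact (Nat.Prime 3) := ⟨Nat.prime_three⟩
  have hm3 : ¬ (3 : ℤ) ∣ m := by
    intro h
    have := hm.dvd
    omega
  have hm0 : (m : ℚ) ≠ 0 := by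
    intro h
    have : m = 0 := by exact_mod_cast h
    subst this
    exact hm3 (dvd_zero _)
  have hn0 : (n : ℚ) ≠ 0 := by positivity
  by_cases hS : S m n = 0
  · have : nu3 (S m n / n) = ⊤ := by simp [nu3, hS]
    rw [this]; simp
  have hSn : S m n / n ≠ 0 := div_ne_zero hS hn0
  set A : ℤ := ∑ k ∈ Finset.range n, (-1) ^ k * ((n - 1).choose k : ℤ) * k.centralBinom * m ^ (n - 1 - k)
    with hA
  have hSA := S_mul m hm0 n
  rw [← hA] at hSA
  have hA0 : A ≠ 0 := by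
    intro h
    rw [h] at hSA
    have := mul_ne_zero hS (pow_ne_zero (n - 1) hm0)
    exact this (by simpa using hSA)
  have hmv : padicValRat 3 (m : ℚ) = 0 := by
    rw [padicValRat.of_int, padicValInt.eq_zero_of_not_dvd (by exact_mod_cast hm3)]; rfl
  have hval : padicValRat 3 (S m n) = padicValInt 3 A := by
    have h1 := congrArg (padicValRat 3) hSA
    rw [padicValRat.mul hS (pow_ne_zero _ hm0), padicValRat.pow, hmv, padicValRat.of_int] at h1
    simpa using h1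
  have hvalSn : padicValRat 3 (S m n / n) = padicValInt 3 A - padicValNat 3 n := by
    rw [padicValRat.div hS hn0, hval, padicValRat.of_nat]
  have hL : nu3 (n : ℚ) = ((padicValNat 3 n : ℤ) : WithTop ℤ) := by
    simp [nu3, hn.ne', padicValRat.of_nat]
  have hR : nu3 (S m n / n) = ((padicValInt 3 A - padicValNat 3 n : ℤ) : WithTop ℤ) := by
    rw [nu3, if_neg hSn, hvalSn]
  rw [hR, hL]
  -- the number e with 3^e dividing m - 1
  obtain ⟨e, he1, he2, he3⟩ : ∃ e : ℕ, (3 : ℤ) ^ (e + 1) ∣ m - 1 ∧ (e + 1 ≤ padicValNat 3 n ∨ padicValNat 3 n = 0) ∧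
      min ((padicValNat 3 n : ℤ) : WithTop ℤ) (nu3 ((m : ℚ) - 1)) ≤
        ((if padicValNat 3 n = 0 then 0 else (e + 1 : ℤ)) : WithTop ℤ) := by
    by_cases hm1 : m = 1
    · subst hm1
      refine ⟨padicValNat 3 n - 1, by simp, by omega, ?_⟩
      refine (min_le_left _ _).trans ?_
      split_ifs with h
      · rw [h]; simp
      · norm_cast; omega
    · have hm1' : (m : ℚ) - 1 ≠ 0 := by
        intro h
        apply hm1
        have : (m : ℚ) = 1 := by linarith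
        exact_mod_cast this
      have hm1z : m - 1 ≠ 0 := by omega
      have hd : (3 : ℤ) ∣ m - 1 := by
        have := hm.symm.dvd
        exact this
      have hv1 : 1 ≤ padicValInt 3 (m - 1) := by
        have := (padicValInt_dvd_iff (p := 3) 1 (m - 1)).1 (by simpa using hd)
        rcases this with h | h
        · exact absurd h hm1z
        · exact h
      have hnu : nu3 ((m : ℚ) - 1) = ((padicValInt 3 (m - 1) : ℤ) : WithTop ℤ) := by
        rw [nu3, if_neg hm1']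
        have : ((m : ℚ) - 1) = ((m - 1 : ℤ) : ℚ) := by push_cast; ring
        rw [this, padicValRat.of_int]
      refine ⟨min (padicValNat 3 n) (padicValInt 3 (m - 1)) - 1, ?_, by omega, ?_⟩
      · have := (padicValInt_dvd_iff (p := 3)
          (min (padicValNat 3 n) (padicValInt 3 (m - 1)) - 1 + 1) (m - 1)).2 (Or.inr (by omega))
        simpa using this
      · rw [hnu]
        split_ifs with h
        · rw [h]; simp
        · norm_cast
          omega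
  refine he3.trans ?_
  split_ifs with h
  · rw [h]
    have h4 : (0 : ℤ) ≤ ((padicValInt 3 A : ℤ) - ((0 : ℕ) : ℤ)) + 1 := by
      push_cast; omega
    exact_mod_cast h4
  · obtain ⟨a, ha⟩ : ∃ a, padicValNat 3 n = a + 1 := ⟨padicValNat 3 n - 1, by omega⟩
    have hdvd : 3 ^ (a + 1) ∣ n := by
      rw [← ha]; exact pow_padicValNat_dvd
    have h1 := int_form m n a e hn hdvd he1 (by omega)
    rw [← hA] at h1
    have h2 := (padicValInt_dvd_iff (p := 3) (a + e + 1) A).1 (by simpa using h1)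
    rcases h2 with h2 | h2
    · exact absurd h2 hA0
    · rw [ha]
      have h4 : (e : ℤ) + 1 ≤ ((padicValInt 3 A : ℤ) - ((a + 1 : ℕ) : ℤ)) + 1 := by
        push_cast; omega
      exact_mod_cast h4

end Pool.Agent.Results.MP_7f2dba_nt.ThreeAdic
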